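import Pool.Agent.Y20.EC.Sph

/-!
# Iterated limit points of the set of normalised Einstein constants

For every `m ≥ 1`, in every dimension `n ≥ 15 m`, `n ≠ 15 m + 1`, there is a compact manifold `M` for
which the `m`-th iterated set of limit points of `Λ(M)`, inside `Λ(M)`, is not empty. In particular
`Λ(M)` need not be discrete in every dimension `n ≥ 15`, `n ≠ 16`.
-/

set_option autoImplicit false

open scoped Manifold ContDiff Topology
open MeasureTheory Module Metric Set
open Pool.Agent.H839R2 Pool.Agent.H839R2.Geo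
open Pool.Agent.Y20.EC

namespace Pool.Agent.Results.MP_1301ff_gt.IteratedLimits

/-- three copies of `S³ × S²` -/
noncomputable def N3 : Mfd := NN.prod (NN.prod NN)

theorem basic : ∃ v₀ : ℝ, 0 < v₀ ∧ (∀ ε > 0, ∃ v ∈ vols NN, v₀ < v ∧ v < v₀ + ε) ∧
    v₀ ^ 3 ∈ vols N3 := by
  obtain ⟨μ, c, hfin, hc, hvol, hint⟩ := exists_roundVolume
  have hπ := Real.pi_pos
  have hi := integral_sqrt_one_sub_sq
  refine ⟨c * (Real.pi / 24), by positivity, ?_, ?_⟩
  · intro ε hε
    obtain ⟨P, H, hA, l1, l2⟩ := exists_adm (ε := ε / c) (by positivity)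
    obtain ⟨ν, fν, vν, mν⟩ := volume_embB hA μ c hvol hint
    set Q := ∫ y in (-1 : ℝ)..1, (√(P y) ^ 3 * H y) * √(1 - y ^ 2) with hQ
    have k1 : c * (Real.pi / 24) < c * Q := mul_lt_mul_of_pos_left l1 hc
    have hpos : 0 < c * Q := lt_trans (by positivity) k1
    refine ⟨c * Q, ⟨hpos, V5, inferInstance, inferInstance, emb5, GB P H, embB hA, ν, fν,
      einstein_embB hA, vν, mν⟩, k1, ?_⟩
    have h1 : c * Q < c * (Real.pi / 24 + ε / c) := mul_lt_mul_of_pos_left l2 hc
    have h2 : c * (Real.pi / 24 + ε / c) = c * (Real.pi / 24) + ε := by field_simp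
    linarith
  · obtain ⟨νT, fT, vT, mT⟩ := volume_embT μ c hvol hint
    obtain ⟨νC, fC, vC, mC⟩ := volume_embB adm_const μ c hvol hint
    have mT' : νT.real univ = c * Real.pi / 27 := by
      rw [mT, intervalIntegral.integral_const_mul, hi]
      ring
    have hCv : νC.real univ = c * (√(1 / 2) ^ 3 * (1 / 4) * (Real.pi / 2)) := by
      rw [mC, intervalIntegral.integral_const_mul, hi]
    have mC' : νC.real univ ^ 2 = c ^ 2 * Real.pi ^ 2 / 512 := by
      have h1 : (√(1 / 2 : ℝ)) ^ 2 = 1 / 2 := Real.sq_sqrt (by norm_num)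
      have h2 : (c * (√(1 / 2) ^ 3 * (1 / 4) * (Real.pi / 2))) ^ 2 =
          c ^ 2 * Real.pi ^ 2 / 64 * ((√(1 / 2 : ℝ)) ^ 2) ^ 3 := by ring
      rw [hCv, h2, h1]
      ring
    have aT : νT.real univ ∈ vols NN :=
      ⟨by rw [mT']; positivity, V5, inferInstance, inferInstance, emb5, GT, embT, νT, fT,
        einstein_embT, vT, rfl⟩
    have aC : νC.real univ ∈ vols NN :=
      ⟨by rw [hCv]; positivity, V5, inferInstance, inferInstance, emb5, _, embB adm_const, νC, fC,
        einstein_embB adm_const, vC, rfl⟩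
    have h3 : (c * (Real.pi / 24)) ^ 3 = νT.real univ * (νC.real univ * νC.real univ) := by
      rw [mT', ← pow_two, mC']
      ring
    rw [h3]
    exact vols_prod _ aT _ (vols_prod _ aC _ aC)

theorem lims_N3 : (lims (vols N3) 1).Nonempty := by
  obtain ⟨v₀, h0, h1, h2⟩ := basic
  refine ⟨v₀ ^ 3, h2, fun ε hε => ?_⟩
  have hc : ContinuousAt (fun x : ℝ => x * (x * x)) v₀ := by fun_prop
  obtain ⟨δ, hδ, hδ'⟩ := Metric.continuousAt_iff.1 hc ε hε
  obtain ⟨v, hv, h3, h4⟩ := h1 δ hδ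
  refine ⟨v * (v * v), vols_prod _ hv _ (vols_prod _ hv _ hv), ?_, ?_⟩
  · have h5 : v₀ ^ 3 < v ^ 3 := pow_lt_pow_left₀ h3 h0.le (by norm_num)
    have h6 : v * (v * v) = v ^ 3 := by ring
    rw [h6]
    exact h5.ne'
  · have h5 := hδ' (x := v) (by
      rw [Real.dist_eq, abs_of_pos (by linarith)]
      linarith)
    rw [Real.dist_eq] at h5
    have h6 : v₀ ^ 3 = v₀ * (v₀ * v₀) := by ring
    rw [h6]
    exact h5

theorem infinite_vols : (vols NN).Infinite := by
  obtain ⟨v₀, h0, h1, -⟩ := basic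
  intro hfin
  have hfin' : {v | v ∈ vols NN ∧ v₀ < v}.Finite := hfin.subset fun v hv => hv.1
  obtain ⟨w, hw, hw1, -⟩ := h1 1 one_pos
  obtain ⟨m, hm, hmin⟩ := Set.exists_min_image _ id hfin' ⟨w, hw, hw1⟩
  obtain ⟨v, hv, h3, h4⟩ := h1 (m - v₀) (by linarith [hm.2])
  have h5 := hmin v ⟨hv, h3⟩
  simp only [id] at h5
  linarith

/-- `m + 1` copies of `N3` -/
noncomputable def pw : ℕ → Mfd
  | 0 => N3
  | m + 1 => N3.prod (pw m)

theorem lims_pw (m : ℕ) : (lims (vols (pw m)) (m + 1)).Nonempty := by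
  induction m with
  | zero => exact lims_N3
  | succ m ih =>
    obtain ⟨b, hb⟩ := ih
    obtain ⟨a, ha⟩ := lims_N3
    refine ⟨a * b, ?_⟩
    have h := lims_mul (vols_ne N3) (vols_ne (pw m)) (C := vols (pw (m + 1))) vols_prod ha hb
    rwa [add_comm 1 (m + 1)] at h

/-- one more copy of `S³ × S²` -/
theorem lims_NN {X : Mfd} {k : ℕ} (h : (lims (vols X) k).Nonempty) :
    (lims (vols (NN.prod X)) k).Infinite := by
  obtain ⟨b, hb⟩ := h
  have hb0 : b ≠ 0 := vols_ne X b (lims_sub _ _ hb)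
  refine (infinite_vols.image (f := fun v => v * b)
    (fun v _ w _ hvw => mul_right_cancel₀ hb0 hvw)).mono ?_
  rintro _ ⟨v, hv, rfl⟩
  have h1 := lims_mul (vols_ne NN) (vols_ne X) (C := vols (NN.prod X)) vols_prod
    (i := 0) (j := k) hv hb
  rwa [zero_add] at h1

/-- a product with a sphere of dimension `d + 1 ≥ 2` -/
theorem lims_SS {X : Mfd} {k d : ℕ} (h : (lims (vols X) k).Nonempty) (hd : 0 < d) :
    (lims (vols ((SS d).prod X)) k).Nonempty := by
  obtain ⟨b, hb⟩ := h
  obtain ⟨v, hv⟩ := vols_SS hd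
  have h1 := lims_mul (vols_ne (SS d)) (vols_ne X) (C := vols ((SS d).prod X)) vols_prod
    (i := 0) (j := k) hv hb
  rw [zero_add] at h1
  exact ⟨_, h1⟩

theorem finrank_prod (X Y : Mfd) : finrank ℝ (X.prod Y).E = finrank ℝ X.E + finrank ℝ Y.E :=
  Module.finrank_prod

theorem finrank_NN : finrank ℝ NN.E = 5 := Round.finrank5

theorem finrank_N3 : finrank ℝ N3.E = 15 := by
  unfold N3
  rw [finrank_prod, finrank_prod, finrank_NN]

theorem finrank_pw (m : ℕ) : finrank ℝ (pw m).E = 15 * (m + 1) := by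
  induction m with
  | zero => exact finrank_N3
  | succ m ih =>
    have h : finrank ℝ (pw (m + 1)).E = finrank ℝ N3.E + finrank ℝ (pw m).E := finrank_prod _ _
    rw [h, finrank_N3, ih]
    ring

theorem exists_mfd (k e : ℕ) (he : e ≠ 1) :
    ∃ X : Mfd, finrank ℝ X.E = 15 * (k + 1) + e ∧ (lims (vols X) (k + 1)).Nonempty := by
  rcases Nat.eq_zero_or_pos e with h | h
  · exact ⟨pw k, by rw [finrank_pw, h, add_zero], lims_pw k⟩
  · refine ⟨(SS (e - 1)).prod (pw k), ?_, lims_SS (lims_pw k) (by omega)⟩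
    rw [finrank_prod, finrank_SS, finrank_pw]
    omega

theorem exists_inf (k e : ℕ) (he : e ≠ 1) :
    ∃ X : Mfd, finrank ℝ X.E = 15 * (k + 1) + 5 + e ∧ (lims (vols X) (k + 1)).Infinite := by
  obtain ⟨X, h1, h2⟩ := exists_mfd k e he
  refine ⟨NN.prod X, ?_, lims_NN h2⟩
  rw [finrank_prod, finrank_NN, h1]
  omega

theorem exists_all (m n : ℕ) (hm : 0 < m) (hn : 15 * m ≤ n) (hn1 : n ≠ 15 * m + 1) :
    ∃ X : Mfd, finrank ℝ X.E = n ∧ (lims (vols X) m).Nonempty ∧
      ((n = 15 * m + 5 ∨ 15 * m + 7 ≤ n) → (lims (vols X) m).Infinite) := by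
  obtain ⟨k, rfl⟩ : ∃ k, m = k + 1 := ⟨m - 1, by omega⟩
  by_cases h : n = 15 * (k + 1) + 5 ∨ 15 * (k + 1) + 7 ≤ n
  · obtain ⟨X, h1, h2⟩ := exists_inf k (n - (15 * (k + 1) + 5)) (by omega)
    exact ⟨X, by omega, h2.nonempty, fun _ => h2⟩
  · obtain ⟨X, h1, h2⟩ := exists_mfd k (n - 15 * (k + 1)) (by omega)
    exact ⟨X, by omega, h2, fun h3 => absurd h3 h⟩

/-- **Theorem.** Let `m ≥ 1` and let `n ≥ 15 m`, `n ≠ 15 m + 1`. There is a compact connected
Hausdorff smooth manifold `M` without boundary, of dimension `n`, such that the `m`-th iterated set of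
limit points of the set `Λ(M)` of its normalised Einstein constants, taken inside `Λ(M)`, is not
empty; if `n = 15 m + 5` or `n ≥ 15 m + 7`, it is infinite. In particular (`m = 1`) in every
dimension `n ≥ 15`, `n ≠ 16`, there is such a manifold for which `Λ(M)` is not discrete. (The proof
gives products of `3 m` or `3 m + 1` copies of `S³ × S²` and at most one sphere.) -/
theorem result (m n : ℕ) (hm : 0 < m) (hn : 15 * m ≤ n) (hn1 : n ≠ 15 * m + 1) :
    ∃ (E : Type) (_ : NormedAddCommGroup E) (_ : NormedSpace ℝ E) (_ : FiniteDimensional ℝ E)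
      (_ : MeasurableSpace E) (_ : BorelSpace E) (H : Type) (_ : TopologicalSpace H)
      (I : ModelWithCorners ℝ E H) (M : Type) (_ : TopologicalSpace M) (_ : ChartedSpace H M)
      (_ : IsManifold I ∞ M) (_ : MeasurableSpace M) (_ : BorelSpace M),
      I.Boundaryless ∧ finrank ℝ E = n ∧ CompactSpace M ∧ ConnectedSpace M ∧ T2Space M ∧
      (lims (Stmt.einsteinConstants I M) m).Nonempty ∧
      ((n = 15 * m + 5 ∨ 15 * m + 7 ≤ n) → (lims (Stmt.einsteinConstants I M) m).Infinite) := by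
  obtain ⟨X, hd, h1, h2⟩ := exists_all m n hm hn hn1
  have hpos : 0 < finrank ℝ X.E := by omega
  refine ⟨X.E, inferInstance, inferInstance, inferInstance, inferInstance,
    inferInstance, X.H, inferInstance, X.I, X.M, inferInstance,
    inferInstance, inferInstance, inferInstance, inferInstance, inferInstance, hd, inferInstance,
    inferInstance, inferInstance, ?_, ?_⟩
  · obtain ⟨v, hv⟩ := h1
    exact ⟨_, nec_lims _ hpos _ hv⟩
  · intro hj
    refine ((h2 hj).image (f := nec (finrank ℝ X.E)) ?_).mono ?_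
    · exact (nec_inj hpos).mono fun v hv => (lims_sub _ _ hv).1
    · rintro _ ⟨v, hv, rfl⟩
      exact nec_lims _ hpos _ hv

end Pool.Agent.Results.MP_1301ff_gt.IteratedLimits
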